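import Pool.Agent.P.MP_7c03a7_pr.S.Merge

/-! The weighted count of irreducible cuts under a summable profile. -/

namespace Pool.Agent.P.MP_7c03a7_pr.S

open Finset
open scoped Classical

variable {V E : Type*}

lemma core_good {m β f K : ℝ} (hm : 1 ≤ m) (hβ : 0 ≤ β) (hf : 0 < f) (hK : 4 ≤ K)
    (h : f ≤ 4 * m) : m + β ≤ m * Real.exp (K * (1 / f * β)) := by
  have h1 := Real.add_one_le_exp (K * (1 / f * β))
  have h2 : β ≤ m * (K * (1 / f * β)) := by
    have e : m * (K * (1 / f * β)) = β * (K * m) / f := by ring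
    rw [e, le_div_iff₀ hf]
    exact mul_le_mul_of_nonneg_left (by nlinarith) hβ
  nlinarith

lemma core_bad {m β f K μ : ℝ} (hm : 1 ≤ m) (hK : 4 ≤ K) (hf : f ≤ m + β) (h : 4 * m < f)
    (hμ0 : 0 ≤ μ) (hμ : μ + f / 2 ≤ β) :
    m + β ≤ m * Real.exp (K * ((1 / f + (1 / √(1 + μ) - 1 / √(1 + β))) * β)) := by
  have hf0 : 0 < f := by linarith
  have hβ : 3 ≤ β := by linarith
  set u := √(1 + μ) with hu
  set v := √(1 + β) with hv
  have hu0 : 0 < u := Real.sqrt_pos.2 (by linarith)
  have hv0 : 0 < v := Real.sqrt_pos.2 (by linarith)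
  have hu2 : u ^ 2 = 1 + μ := Real.sq_sqrt (by linarith)
  have hv2 : v ^ 2 = 1 + β := Real.sq_sqrt (by linarith)
  have huv : u ≤ v := Real.sqrt_le_sqrt (by linarith)
  have hd : f / (4 * v ^ 3) ≤ 1 / u - 1 / v := by
    rw [div_sub_div _ _ hu0.ne' hv0.ne', div_le_div_iff₀ (by positivity) (by positivity)]
    have h1 : f ≤ 2 * ((v - u) * (v + u)) := by nlinarith
    have h2 : (v + u) * (u * v) ≤ 2 * v ^ 3 := by nlinarith [mul_pos hu0 hv0]
    have h3 : 0 ≤ v - u := by linarith
    nlinarith [mul_le_mul_of_nonneg_right h1 (mul_pos hu0 hv0).le, mul_le_mul_of_nonneg_left h2 h3]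
  set d := 1 / u - 1 / v with hdd
  have hd0 : 0 ≤ d := le_trans (by positivity) hd
  set X := K * ((1 / f + d) * β) with hX
  have hX0 : 0 ≤ X := by positivity
  have h1 : 1 / v ^ 3 ≤ (1 / f + d) ^ 2 := by
    have h2 : 1 / v ^ 3 ≤ 4 * (1 / f) * d := by
      calc 1 / v ^ 3 = 4 * (1 / f) * (f / (4 * v ^ 3)) := by field_simp
        _ ≤ _ := mul_le_mul_of_nonneg_left hd (by positivity)
    nlinarith [sq_nonneg (1 / f - d)]
  have h2 : 16 * β ^ 2 / v ^ 3 ≤ X ^ 2 := by
    calc 16 * β ^ 2 / v ^ 3 = 4 ^ 2 * (1 / v ^ 3 * β ^ 2) := by ring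
      _ ≤ K ^ 2 * ((1 / f + d) ^ 2 * β ^ 2) := by gcongr
      _ = X ^ 2 := by rw [hX]; ring
  have h3 : 108 * β ≤ X ^ 4 := by
    calc 108 * β ≤ (16 * β ^ 2 / v ^ 3) ^ 2 := by
          rw [div_pow, ← pow_mul, show 3 * 2 = 2 * 3 from rfl, pow_mul v, hv2,
            le_div_iff₀ (by positivity)]
          have h4 : (1 + β) ^ 3 ≤ (4 / 3 * β) ^ 3 := by gcongr; linarith
          nlinarith
      _ ≤ (X ^ 2) ^ 2 := by gcongr
      _ = X ^ 4 := by ring
  have h4 := Real.pow_div_factorial_le_exp X hX0 4
  norm_num [Nat.factorial] at h4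
  nlinarith [Real.exp_pos X]

section

variable (src tgt : E → V) (s : Finset E) (w : E → ℝ) (ψ : ℕ → ℝ)

/-- Weight of the edges of the cut `A` on the boundary of `D`. -/
noncomputable def be (A D : Finset V) : ℝ :=
  ∑ e ∈ s.filter (fun e => Cross src tgt A e ∧ Cross src tgt D e), w e

/-- Weight of the boundary edges of `D` outside the cut `A`. -/
noncomputable def mm (A D : Finset V) : ℝ :=
  ∑ e ∈ s.filter (fun e => Cross src tgt D e ∧ ¬ Cross src tgt A e), w e

/-- The largest cut weight of a mostly cut subset of at most half the size. -/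
noncomputable def mu (A D : Finset V) : ℝ :=
  D.powerset.sup' (powerset_nonempty D) fun P =>
    if 2 * P.card ≤ D.card ∧ P.Nonempty ∧ 4 * mm src tgt s w A P < ψ P.card
    then be src tgt s w A P else 0

variable {src tgt s w ψ}

lemma mm_add_be (A D : Finset V) : mm src tgt s w A D + be src tgt s w A D = bd src tgt s w D := by
  simp only [bd, be, mm, sum_filter, ← sum_add_distrib]
  refine sum_congr rfl fun e _ => ?_
  by_cases h1 : Cross src tgt A e <;> by_cases h2 : Cross src tgt D e <;> simp [h1, h2]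

lemma mu_nonneg (A D : Finset V) : 0 ≤ mu src tgt s w ψ A D :=
  le_trans (by simp) (le_sup' _ (empty_mem_powerset D))

lemma le_mu {A D P : Finset V} (h1 : P ⊆ D) (h2 : 2 * P.card ≤ D.card) (h3 : P.Nonempty)
    (h4 : 4 * mm src tgt s w A P < ψ P.card) : be src tgt s w A P ≤ mu src tgt s w ψ A D :=
  le_trans (by rw [if_pos ⟨h2, h3, h4⟩]) (le_sup' _ (mem_powerset.2 h1))

lemma mu_le {A D : Finset V} {c : ℝ} (h0 : 0 ≤ c) (h : ∀ P ⊆ D, 2 * P.card ≤ D.card → P.Nonempty →
    4 * mm src tgt s w A P < ψ P.card → be src tgt s w A P ≤ c) : mu src tgt s w ψ A D ≤ c := by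
  refine sup'_le _ _ fun P hP => ?_
  split_ifs with h1
  · exact h P (mem_powerset.1 hP) h1.1 h1.2.1 h1.2.2
  · exact h0

lemma mu_mono {A D N : Finset V} (h : D ⊆ N) : mu src tgt s w ψ A D ≤ mu src tgt s w ψ A N :=
  mu_le (mu_nonneg _ _) fun _ h1 h2 h3 h4 =>
    le_mu (h1.trans h) (h2.trans (card_le_card h)) h3 h4

lemma bd_sdiff (hw : ∀ e ∈ s, 0 ≤ w e) {A D P : Finset V} (hD : D ⊆ A ∨ Disjoint D A)
    (hP : P ⊆ D) : bd src tgt s w (D \ P) + be src tgt s w A P ≤
      be src tgt s w A D + mm src tgt s w A P + mm src tgt s w A D := by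
  simp only [bd, be, mm, sum_filter, ← sum_add_distrib]
  refine sum_le_sum fun e he => ?_
  have h0 := hw e he
  have a1 := @hP (src e)
  have a2 := @hP (tgt e)
  have a3 : (src e ∈ D → tgt e ∈ D → (src e ∈ A ↔ tgt e ∈ A)) := fun h1 h2 => by
    rcases hD with hD | hD
    · exact iff_of_true (hD h1) (hD h2)
    · exact iff_of_false (disjoint_left.1 hD h1) (disjoint_left.1 hD h2)
  simp only [Cross, mem_sdiff]
  by_cases b1 : src e ∈ P <;> by_cases b2 : tgt e ∈ P <;> by_cases b3 : src e ∈ D <;>
    by_cases b4 : tgt e ∈ D <;> by_cases b5 : src e ∈ A <;> by_cases b6 : tgt e ∈ A <;>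
    simp_all

end

lemma inv_sqrt_anti {a b : ℝ} (ha : 0 ≤ a) (h : a ≤ b) : 1 / √(1 + b) ≤ 1 / √(1 + a) :=
  one_div_le_one_div_of_le (Real.sqrt_pos.2 (by linarith)) (Real.sqrt_le_sqrt (by linarith))

lemma count_aux (src tgt : E → V) (s : Finset E) {w : E → ℝ} (hw : ∀ e ∈ s, 0 ≤ w e)
    {ψ h : ℕ → ℝ} (hp : Pr ψ h) {L : Finset V} (o : V)
    (hiso : ∀ S : Finset V, S.Nonempty → S ⊆ L → ψ (2 * S.card) ≤ bd src tgt s w S)
    {K u : ℝ} (hK : 4 ≤ K) (hu : 2 * (1 + 1 / ψ 1) ≤ u * K ^ 2) :
    ∀ n : ℕ, ∀ B : V → Finset V, Good L B → size L B < n →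
      ∑ A ∈ L.powerset.filter (fun A => Valid src tgt s w L o A ∧ Meas B A),
        Real.exp (-Psi src tgt s w K
          (hg (fun D => h D.card + 1 / √(1 + mu src tgt s w ψ A D)) B) A)
        ≤ u * hg (fun D => h D.card) B o := by
  have hK0 : 0 < K := by linarith
  have hψ1 := hp.pos 1 le_rfl
  have hu0 : 0 < u := by
    by_contra h
    push Not at h
    have : 0 < 1 / ψ 1 := by positivity
    nlinarith [mul_nonneg (neg_nonneg.2 h) (sq_nonneg K)]
  set G : Finset V → Finset V → ℝ := fun A D => h D.card + 1 / √(1 + mu src tgt s w ψ A D)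
    with hG
  have hG0 : ∀ A D, 0 ≤ G A D := fun A D => add_nonneg (hp.nonneg _) (by positivity)
  have hGa : ∀ A (D N : Finset V), D.Nonempty → D ⊆ N → G A N ≤ G A D := fun A D N h1 h2 =>
    add_le_add (hp.card_anti D N h1 h2) (inv_sqrt_anti (mu_nonneg _ _) (mu_mono h2))
  intro n
  induction n with
  | zero => intro B _ h; omega
  | succ n ih =>
    intro B hB hn
    by_cases hne : ∃ x, (B x).Nonempty
    swap
    · rw [Finset.sum_eq_zero]
      · exact mul_nonneg hu0.le (hg_nonneg (fun _ => hp.nonneg _) B o)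
      · intro A hA
        obtain ⟨_, hv, hm⟩ := Finset.mem_filter.1 hA
        exact absurd ⟨o, (hm o hv.1).1⟩ hne
    obtain ⟨D, hDne, hDL, hBD, hDat, hDm⟩ := merge_edge src tgt hB hne
    choose! B' hB'good hB'size hB'le hB'le' hB'meas using hDm
    have hD1 : 1 ≤ D.card := hDne.card_pos
    set f := ψ D.card with hf
    have hf0 : 0 < f := hp.pos _ hD1
    set X := s.filter (Cross src tgt D) with hX
    set b := ∑ e ∈ X, w e with hb
    have hfb : f ≤ b := (hp.mono _ _ hD1 (by omega)).trans (hiso D hDne hDL)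
    have hb0 : 0 < b := lt_of_lt_of_le hf0 hfb
    have hXc : ∀ e ∈ X, Cross src tgt D e := fun e he => (Finset.mem_filter.1 he).2
    have hXw : ∀ e ∈ X, 0 ≤ w e := fun e he => hw e (Finset.mem_filter.1 he).1
    set 𝒜 := L.powerset.filter (fun A => Valid src tgt s w L o A ∧ Meas B A) with h𝒜
    -- the bound for one cut different from `D`
    have key : ∀ A ∈ 𝒜.erase D, Real.exp (-Psi src tgt s w K (hg (G A) B) A)
        ≤ ∑ e ∈ X, w e / b * (if Valid src tgt s w L o A ∧ Meas (B' e) A then
            Real.exp (-Psi src tgt s w K (hg (G A) (B' e)) A) else 0) := by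
      intro A hA
      obtain ⟨hAD, hA'⟩ := Finset.mem_erase.1 hA
      obtain ⟨_, hv, hm⟩ := Finset.mem_filter.1 hA'
      set m := mm src tgt s w A D with hmdef
      set β := be src tgt s w A D with hβ
      have hm1 : 1 ≤ m := hv.2 D hDne hDL (Ne.symm hAD) (hDat A hm)
      have hβ0 : 0 ≤ β := Finset.sum_nonneg fun e he => hw e (Finset.mem_filter.1 he).1
      have hmβ : m + β = b := mm_add_be A D
      obtain ⟨δ, hδ0, hδ1, hexp⟩ : ∃ δ : ℝ, δ ≤ G A D ∧
          (∀ N, D ⊆ N → 2 * D.card ≤ N.card → G A N + δ ≤ G A D) ∧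
          b ≤ m * Real.exp (K * (δ * β)) := by
        have i1 := hp.inv_le hD1
        by_cases hbad : 4 * m < f
        · have hμ : mu src tgt s w ψ A D + f / 2 ≤ β := by
            rw [← le_sub_iff_add_le]
            refine mu_le (by linarith) fun P h1 h2 h3 h4 => ?_
            have hc : (D \ P).card = D.card - P.card := card_sdiff_of_subset h1
            have h5 := hiso (D \ P) (card_pos.1 (by omega)) (sdiff_subset.trans hDL)
            have h6 := hp.mono D.card (2 * (D \ P).card) hD1 (by omega)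
            have h7 := hp.mono P.card D.card h3.card_pos (by omega)
            have h8 := bd_sdiff (src := src) (tgt := tgt) hw (hDat A hm) h1
            linarith
          refine ⟨1 / f + (1 / √(1 + mu src tgt s w ψ A D) - 1 / √(1 + β)), ?_,
            fun N h1 h2 => ?_, hmβ ▸ core_bad hm1 hK (hmβ ▸ hfb) hbad (mu_nonneg _ _) hμ⟩
          · have : 0 ≤ 1 / √(1 + β) := by positivity
            simp only [hG]
            linarith
          · have a1 := hp.drop' hD1 h2
            have a2 := inv_sqrt_anti hβ0 (le_mu (ψ := ψ) h1 h2 hDne hbad)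
            simp only [hG]
            linarith
        · refine ⟨1 / f, ?_, fun N h1 h2 => ?_, hmβ ▸ core_good hm1 hβ0 hf0 hK (not_lt.1 hbad)⟩
          · have : 0 ≤ 1 / √(1 + mu src tgt s w ψ A D) := by positivity
            simp only [hG]
            linarith
          · have a1 := hp.drop' hD1 h2
            have a2 := inv_sqrt_anti (mu_nonneg A D) (mu_mono (src := src) (tgt := tgt) (s := s)
              (w := w) (ψ := ψ) h1)
            simp only [hG]
            linarith
      have hpsi : ∀ e ∈ X, Psi src tgt s w K (hg (G A) (B' e)) A + K * (δ * β)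
          ≤ Psi src tgt s w K (hg (G A) B) A := by
        intro e he
        unfold Psi
        rw [← mul_add]
        refine mul_le_mul_of_nonneg_left ?_ hK0.le
        have hβ' : δ * β = ∑ e' ∈ s.filter (Cross src tgt A),
            w e' * (if Cross src tgt D e' then δ else 0) := by
          rw [hβ, be, ← Finset.filter_filter, Finset.sum_filter (Cross src tgt D), Finset.mul_sum]
          refine Finset.sum_congr rfl fun e' _ => ?_
          split_ifs <;> ring
        rw [hβ', ← Finset.sum_add_distrib]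
        refine Finset.sum_le_sum fun e' he' => ?_
        rw [← mul_add]
        exact mul_le_mul_of_nonneg_left
          (edge_drop (hg_le (hG0 A) (hGa A) (hB'le e (hXc e he)))
            (hg_drop hDne hBD (hB'le e (hXc e he)) (hB'le' e (hXc e he)) hδ0 hδ1) e')
          (hw e' (Finset.mem_filter.1 he').1)
      set P := Real.exp (-Psi src tgt s w K (hg (G A) B) A) with hP
      have hP0 : 0 < P := Real.exp_pos _
      calc P ≤ m / b * (P * Real.exp (K * (δ * β))) := by
            rw [div_mul_eq_mul_div, le_div_iff₀ hb0]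
            nlinarith
        _ = ∑ e ∈ X, w e / b * (if ¬ Cross src tgt A e then
              P * Real.exp (K * (δ * β)) else 0) := by
            rw [hmdef, mm, ← Finset.filter_filter,
              Finset.sum_filter (fun e => ¬ Cross src tgt A e), Finset.sum_div, Finset.sum_mul]
            refine Finset.sum_congr rfl fun e _ => ?_
            split_ifs <;> ring
        _ ≤ _ := by
            refine Finset.sum_le_sum fun e he => ?_
            refine mul_le_mul_of_nonneg_left ?_ (div_nonneg (hXw e he) hb0.le)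
            by_cases hc : Cross src tgt A e
            · rw [if_neg (not_not.2 hc)]
              split_ifs
              · exact (Real.exp_pos _).le
              · exact le_rfl
            · rw [if_pos hc, if_pos ⟨hv, hB'meas e (hXc e he) A hm hc⟩, hP, ← Real.exp_add]
              exact Real.exp_le_exp.2 (by linarith [hpsi e he])
    -- summing over the cuts different from `D`
    have hsum : ∀ c : ℝ, (∀ e ∈ X, hg (fun D => h D.card) (B' e) o ≤ c) →
        ∑ A ∈ 𝒜.erase D, Real.exp (-Psi src tgt s w K (hg (G A) B) A) ≤ u * c := by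
      intro c hc
      calc ∑ A ∈ 𝒜.erase D, Real.exp (-Psi src tgt s w K (hg (G A) B) A)
          ≤ ∑ A ∈ 𝒜.erase D, ∑ e ∈ X, w e / b * (if Valid src tgt s w L o A ∧ Meas (B' e) A then
            Real.exp (-Psi src tgt s w K (hg (G A) (B' e)) A) else 0) := Finset.sum_le_sum key
        _ ≤ ∑ A ∈ L.powerset, ∑ e ∈ X, w e / b *
            (if Valid src tgt s w L o A ∧ Meas (B' e) A then
              Real.exp (-Psi src tgt s w K (hg (G A) (B' e)) A) else 0) := by
            refine Finset.sum_le_sum_of_subset_of_nonneg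
              ((Finset.erase_subset _ _).trans (Finset.filter_subset _ _)) fun A _ _ => ?_
            refine Finset.sum_nonneg fun e he => mul_nonneg (div_nonneg (hXw e he) hb0.le) ?_
            split_ifs
            · exact (Real.exp_pos _).le
            · exact le_rfl
        _ = ∑ e ∈ X, w e / b * ∑ A ∈ L.powerset.filter
              (fun A => Valid src tgt s w L o A ∧ Meas (B' e) A),
              Real.exp (-Psi src tgt s w K (hg (G A) (B' e)) A) := by
            rw [Finset.sum_comm]
            refine Finset.sum_congr rfl fun e _ => ?_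
            rw [Finset.sum_filter, Finset.mul_sum]
        _ ≤ ∑ e ∈ X, w e / b * (u * c) := by
            refine Finset.sum_le_sum fun e he => ?_
            refine mul_le_mul_of_nonneg_left ?_ (div_nonneg (hXw e he) hb0.le)
            refine (ih (B' e) (hB'good e (hXc e he)) ?_).trans
              (mul_le_mul_of_nonneg_left (hc e he) hu0.le)
            have := hB'size e (hXc e he)
            omega
        _ = u * c := by
            rw [← Finset.sum_mul, ← Finset.sum_div, ← hb, div_self hb0.ne', one_mul]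
    by_cases hD𝒜 : D ∈ 𝒜
    · obtain ⟨_, hv, _⟩ := Finset.mem_filter.1 hD𝒜
      have hoD : o ∈ D := hv.1
      have h1 := hsum (hg (fun D => h D.card) B o - 1 / f) fun e he =>
        le_sub_iff_add_le.2 (hg_drop (g := fun D => h D.card) hDne hBD (hB'le e (hXc e he))
          (hB'le' e (hXc e he)) (hp.inv_le hD1) (fun N _ h2 => hp.drop' hD1 h2) o hoD)
      have hin : ∀ z ∈ D, 1 / √(1 + b) ≤ hg (G D) B z := fun z hz => by
        rw [hg, hBD z hz, if_pos hDne]
        have : mu src tgt s w ψ D D ≤ b := mu_le hb0.le fun P _ _ _ _ =>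
          sum_le_sum_of_subset_of_nonneg (fun e he =>
            mem_filter.2 ⟨(mem_filter.1 he).1, (mem_filter.1 he).2.1⟩) fun e he _ => hXw e he
        linarith [inv_sqrt_anti (mu_nonneg D D) this, hp.nonneg D.card]
      have h2 : K * (b * (1 / √(1 + b))) ≤ Psi src tgt s w K (hg (G D) B) D := by
        unfold Psi
        refine mul_le_mul_of_nonneg_left ?_ hK0.le
        rw [hb, Finset.sum_mul]
        refine Finset.sum_le_sum fun e he => mul_le_mul_of_nonneg_left ?_ (hXw e he)
        have hc := hXc e he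
        unfold Cross at hc
        by_cases hs : src e ∈ D
        · linarith [hin _ hs, hg_nonneg (hG0 D) B (tgt e)]
        · have ht' : tgt e ∈ D := by
            by_contra h
            exact hc ⟨fun h' => absurd h' hs, fun h' => absurd h' h⟩
          linarith [hin _ ht', hg_nonneg (hG0 D) B (src e)]
      have h3 : Real.exp (-Psi src tgt s w K (hg (G D) B) D) ≤ u * (1 / f) := by
        set Y := K * (b * (1 / √(1 + b))) with hY
        have a1 : Real.exp (-Psi src tgt s w K (hg (G D) B) D) ≤ Real.exp (-Y) :=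
          Real.exp_le_exp.2 (by linarith)
        have a2 := Real.pow_div_factorial_le_exp Y (by positivity) 2
        norm_num [Nat.factorial] at a2
        have a3 : Y ^ 2 = K ^ 2 * b ^ 2 / (1 + b) := by
          rw [hY, mul_pow, mul_pow, div_pow, Real.sq_sqrt (by linarith)]
          ring
        have a4 : 1 / b ≤ 1 / ψ 1 :=
          one_div_le_one_div_of_le hψ1 ((hp.mono _ _ le_rfl hD1).trans hfb)
        have a5 : b ≤ u * (Y ^ 2 / 2) := by
          have a6 : 2 * (1 + 1 / b) * b ^ 2 ≤ u * K ^ 2 * b ^ 2 :=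
            mul_le_mul_of_nonneg_right (by linarith) (sq_nonneg b)
          have a7 : 2 * (1 + 1 / b) * b ^ 2 = 2 * (b * (1 + b)) := by field_simp; ring
          rw [a3, div_div, ← mul_div_assoc, le_div_iff₀ (by positivity)]
          linarith
        refine a1.trans ?_
        rw [Real.exp_neg, mul_one_div, inv_le_iff_one_le_mul₀ (Real.exp_pos _), div_mul_eq_mul_div,
          one_le_div hf0]
        nlinarith
      rw [← Finset.add_sum_erase _ _ hD𝒜]
      linarith
    · rw [← Finset.erase_eq_of_notMem hD𝒜]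
      exact hsum _ fun e he =>
        hg_le (fun _ => hp.nonneg _) hp.card_anti (hB'le e (hXc e he)) o

/-- The weighted number of irreducible cuts is small. -/
lemma count_cuts (src tgt : E → V) (s : Finset E) {w : E → ℝ} (hw : ∀ e ∈ s, 0 ≤ w e)
    {ψ h : ℕ → ℝ} (hp : Pr ψ h) {L : Finset V} (o : V)
    (hiso : ∀ S : Finset V, S.Nonempty → S ⊆ L → ψ (2 * S.card) ≤ bd src tgt s w S)
    {K u : ℝ} (hK : 4 ≤ K) (hu0 : 0 ≤ u) (hu : 2 * (1 + 1 / ψ 1) ≤ u * K ^ 2) :
    ∑ A ∈ L.powerset, (if Valid src tgt s w L o A then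
      Real.exp (-(2 * K * (h 1 + 1) * bd src tgt s w A)) else 0) ≤ u * h 1 := by
  have h0 := count_aux src tgt s hw hp o hiso hK hu _ (init L) (good_init L) (Nat.lt_succ_self _)
  rw [Finset.sum_filter] at h0
  refine le_trans (Finset.sum_le_sum fun A hA => ?_)
    (h0.trans (mul_le_mul_of_nonneg_left (hp.hg_init L o) hu0))
  have hm : Meas (init L) A := meas_init (Finset.mem_powerset.1 hA)
  by_cases hv : Valid src tgt s w L o A
  · rw [if_pos hv, if_pos ⟨hv, hm⟩]
    refine Real.exp_le_exp.2 (neg_le_neg ?_)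
    unfold Psi bd
    have : 2 * K * (h 1 + 1) * ∑ e ∈ s.filter (Cross src tgt A), w e
        = K * ∑ e ∈ s.filter (Cross src tgt A), w e * ((h 1 + 1) + (h 1 + 1)) := by
      rw [← Finset.sum_mul]; ring
    rw [this]
    have h1 : ∀ x, hg (fun D => h D.card + 1 / √(1 + mu src tgt s w ψ A D)) (init L) x
        ≤ h 1 + 1 := fun x => by
      unfold hg
      split_ifs with h2
      · refine add_le_add (hp.anti _ _ le_rfl h2.card_pos) ?_
        simpa using inv_sqrt_anti le_rfl (mu_nonneg A (init L x))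
      · linarith [hp.nonneg 1]
    refine mul_le_mul_of_nonneg_left (Finset.sum_le_sum fun e he => ?_) (by linarith)
    exact mul_le_mul_of_nonneg_left (add_le_add (h1 _) (h1 _)) (hw e (Finset.mem_filter.1 he).1)
  · rw [if_neg hv, if_neg (fun h => hv h.1)]

end Pool.Agent.P.MP_7c03a7_pr.S
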