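import Pool.Agent.P.MP_7c03a7_pr.Defs

/-! The isoperimetric profile of a generating measure. -/

namespace Pool.Agent.P.MP_7c03a7_pr

open scoped ENNReal

variable {Γ : Type*}

/-- The isoperimetric profile: the least boundary of a finite set with at least `n` elements. -/
noncomputable def profile [Group Γ] (μ : PMF Γ) (n : ℕ) : ℝ≥0∞ :=
  ⨅ (S : Finset Γ) (_ : n ≤ S.card), boundary μ S

/-- The series `∑_{n ≥ 1} 1 / (n I(n))`, where `I` is the isoperimetric profile. -/
noncomputable def profileSum [Group Γ] (μ : PMF Γ) : ℝ≥0∞ :=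
  ∑' n : ℕ, (((n : ℝ≥0∞) + 1) * profile μ (n + 1))⁻¹

end Pool.Agent.P.MP_7c03a7_pr
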