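import Pool.Agent.P.MP_7c03a7_pr.S.Count

/-! The scaffold tree, the Peierls argument and the finite volume bound, summable profile. -/

namespace Pool.Agent.P.MP_7c03a7_pr.S

open Finset
open scoped Classical

variable {V E : Type*}

lemma scaffold_aux (src tgt : E → V) (s : Finset E) {c : E → ℝ} (hc : ∀ e ∈ s, 0 ≤ c e)
    {ψ h : ℕ → ℝ} (hp : Pr ψ h) {L : Finset V}
    (hiso : ∀ S : Finset V, S.Nonempty → S ⊆ L → ψ (2 * S.card) ≤ bd src tgt s c S)
    {l : ℝ} (hl0 : 0 ≤ l) {g : Finset E → ℝ} (hg' : Antitone g) :
    ∀ n : ℕ, ∀ B : V → Finset V, Good L B → size L B < n → ∀ t : E → ℝ, (∀ e ∈ s, 0 ≤ t e) →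
      ∃ T ⊆ s, (∀ S : Finset V, S.Nonempty → Meas B S → ∃ e ∈ T, Cross src tgt S e) ∧
        Ex s (fun e => t e + l * c e *
          (hg (fun D => h D.card) B (src e) + hg (fun D => h D.card) B (tgt e))) g
          ≤ Ex s (fun e => t e + if e ∈ T then l else 0) g := by
  set H : (V → Finset V) → V → ℝ := hg fun D => h D.card with hH
  have hH0 : ∀ B z, 0 ≤ H B z := hg_nonneg fun _ => hp.nonneg _
  intro n
  induction n with
  | zero => intro B _ h; omega
  | succ n ih =>
    intro B hB hn t ht0
    by_cases hne : ∃ x, (B x).Nonempty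
    swap
    · refine ⟨∅, Finset.empty_subset _, fun S hS hm => ?_, ?_⟩
      · obtain ⟨x, hx⟩ := hS
        exact absurd ⟨x, (hm x hx).1⟩ hne
      · refine Ex_anti (fun e he => by simpa using ht0 e he) (fun e he => ?_) hg'
        have := mul_nonneg (mul_nonneg hl0 (hc e he)) (add_nonneg (hH0 B (src e)) (hH0 B (tgt e)))
        simpa using this
    obtain ⟨D, hDne, hDL, hBD, -, hDm⟩ := merge_edge src tgt hB hne
    have hD1 : 1 ≤ D.card := hDne.card_pos
    set f := ψ D.card with hf
    have hf0 : 0 < f := hp.pos _ hD1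
    set X := s.filter (Cross src tgt D) with hX
    have hfb : f ≤ ∑ e ∈ X, c e := (hp.mono _ _ hD1 (by omega)).trans (hiso D hDne hDL)
    have hXne : X.Nonempty := by
      by_contra h
      rw [Finset.not_nonempty_iff_eq_empty.1 h, Finset.sum_empty] at hfb
      exact absurd hfb (not_le.2 hf0)
    have hXs : X ⊆ s := Finset.filter_subset _ _
    let h' : V → ℝ := fun z => if z ∈ D then H B z - 1 / f else H B z
    have h'0 : ∀ z, 0 ≤ h' z := fun z => by
      simp only [h']
      split_ifs with hz
      · simp only [hH, hg, hBD z hz, if_pos hDne]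
        linarith [hp.inv_le hD1]
      · exact hH0 B z
    have h'1 : ∀ z, h' z ≤ H B z := fun z => by
      simp only [h']
      split_ifs
      · exact sub_le_self _ (by positivity)
      · exact le_rfl
    have h'2 : ∀ z ∈ D, h' z + 1 / f ≤ H B z := fun z hz => by
      simp only [h', if_pos hz]
      linarith
    let t1 : E → ℝ := fun e => t e + l * c e * (h' (src e) + h' (tgt e))
    have ht1 : ∀ e ∈ s, 0 ≤ t1 e := fun e he =>
      add_nonneg (ht0 e he) (mul_nonneg (mul_nonneg hl0 (hc e he)) (add_nonneg (h'0 _) (h'0 _)))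
    let σ : E → ℝ := fun e => l * c e * (1 / f)
    have hσ : ∀ e ∈ X, 0 ≤ σ e := fun e he =>
      mul_nonneg (mul_nonneg hl0 (hc e (hXs he))) (by positivity)
    have hlσ : l ≤ ∑ e ∈ X, σ e := by
      have e1 : ∑ e ∈ X, σ e = l * ((∑ e ∈ X, c e) / f) := by
        rw [Finset.sum_div, Finset.mul_sum]
        exact Finset.sum_congr rfl fun e _ => by simp only [σ]; ring
      rw [e1]
      exact le_mul_of_one_le_right hl0 ((one_le_div hf0).2 hfb)
    obtain ⟨e, heX, he⟩ := sprinkle ht1 hg' hXs hXne hσ hlσ
    obtain ⟨B', hB', hsz, hle, hle', hmeas⟩ := hDm e (Finset.mem_filter.1 heX).2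
    have ht2 : ∀ a ∈ s, 0 ≤ t a + if a = e then l else 0 := fun a ha => by
      have := ht0 a ha
      split_ifs <;> linarith
    obtain ⟨T, hTs, hTc, hT⟩ := ih B' hB' (by omega) (fun a => t a + if a = e then l else 0) ht2
    refine ⟨insert e T, Finset.insert_subset (hXs heX) hTs, fun S hS hm => ?_, ?_⟩
    · by_cases hcr : Cross src tgt S e
      · exact ⟨e, Finset.mem_insert_self _ _, hcr⟩
      · obtain ⟨a, ha, hac⟩ := hTc S hS (hmeas S hm hcr)
        exact ⟨a, Finset.mem_insert_of_mem ha, hac⟩
    · have hh' : ∀ z, H B' z ≤ h' z := fun z => by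
        simp only [h']
        split_ifs with hz
        · exact le_sub_iff_add_le.2 (hg_drop (g := fun D => h D.card) hDne hBD hle hle'
            (hp.inv_le hD1) (fun N _ h2 => hp.drop' hD1 h2) z hz)
        · exact hg_le (fun _ => hp.nonneg _) hp.card_anti hle z
      calc Ex s (fun e => t e + l * c e * (H B (src e) + H B (tgt e))) g
          ≤ Ex s (fun a => t1 a + if a ∈ X then σ a else 0) g := by
            refine Ex_anti (fun a ha => ?_) (fun a ha => ?_) hg'
            · have := ht1 a ha
              split_ifs with h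
              · linarith [hσ a h]
              · linarith
            · have h1 := edge_drop (src := src) (tgt := tgt) h'1 h'2 a
              have h2 := mul_le_mul_of_nonneg_left h1 (mul_nonneg hl0 (hc a ha))
              have h3 : (a ∈ X) ↔ Cross src tgt D a := by simp [hX, ha]
              simp only [t1, σ]
              by_cases h : Cross src tgt D a
              · rw [if_pos h] at h2
                rw [if_pos (h3.2 h)]
                linarith
              · rw [if_neg h] at h2
                rw [if_neg (fun h4 => h (h3.1 h4))]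
                linarith
        _ ≤ Ex s (fun a => t1 a + if a = e then l else 0) g := he
        _ ≤ Ex s (fun a => (t a + if a = e then l else 0)
              + l * c a * (H B' (src a) + H B' (tgt a))) g := by
            refine Ex_anti (fun a ha => ?_) (fun a ha => ?_) hg'
            · exact add_nonneg (ht2 a ha) (mul_nonneg (mul_nonneg hl0 (hc a ha))
                (add_nonneg (hH0 _ _) (hH0 _ _)))
            · have h2 := mul_le_mul_of_nonneg_left (add_le_add (hh' (src a)) (hh' (tgt a)))
                (mul_nonneg hl0 (hc a ha))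
              simp only [t1]
              linarith
        _ ≤ _ := hT
        _ ≤ _ := by
            refine Ex_anti (fun a ha => ?_) (fun a ha => ?_) hg'
            · have := ht0 a ha
              split_ifs <;> linarith
            · by_cases h1 : a = e
              · subst h1
                simp only [Finset.mem_insert_self, if_true]
                split_ifs <;> linarith
              · simp [h1]

lemma peierls (src tgt : E → V) (s : Finset E) {c : E → ℝ} (hc : ∀ e ∈ s, 0 ≤ c e)
    {ψ h : ℕ → ℝ} (hp : Pr ψ h) {L : Finset V} (o : V)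
    (hiso : ∀ S : Finset V, S.Nonempty → S ⊆ L → ψ (2 * S.card) ≤ bd src tgt s c S)
    {K u l : ℝ} (hK : 4 ≤ K) (hu0 : 0 ≤ u) (hu : 2 * (1 + 1 / ψ 1) ≤ u * K ^ 2)
    (hl0 : 0 ≤ l) (hl : 2 * K * (h 1 + 1) ≤ l * Real.exp (-(2 * K * (h 1 + 1))))
    {T : Finset E} (hTs : T ⊆ s)
    (hT : ∀ S : Finset V, S.Nonempty → S ⊆ L → ∃ e ∈ T, Cross src tgt S e) :
    Ex s (fun e => l * (c e + if e ∈ T then 1 else 0))
      (fun ω => if Trapped src tgt L o ω then (1 : ℝ) else 0) ≤ u * h 1 := by
  set c' : E → ℝ := fun e => c e + if e ∈ T then 1 else 0 with hc'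
  set K0 := 2 * K * (h 1 + 1) with hK0def
  have hh1 := hp.nonneg 1
  have hK00 : 0 ≤ K0 := by positivity
  have hc'0 : ∀ e ∈ s, 0 ≤ c' e := fun e he => by
    have := hc e he
    simp only [hc']; split_ifs <;> linarith
  have ht0 : ∀ e ∈ s, 0 ≤ l * c' e := fun e he => mul_nonneg hl0 (hc'0 e he)
  let F : Finset V → Finset E → ℝ := fun A ω =>
    if Linked src tgt L o (ω ∪ T) A then 1 else 0
  have hF0 : ∀ A ω, 0 ≤ F A ω := fun A ω => by
    simp only [F]; split_ifs <;> norm_num
  have hF : ∀ A, ∀ e ∈ s.filter (Cross src tgt A), ∀ ω, F A (insert e ω) = F A ω := by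
    intro A e he ω
    have hce := (Finset.mem_filter.1 he).2
    have : Linked src tgt L o (insert e ω ∪ T) A ↔ Linked src tgt L o (ω ∪ T) A := by
      unfold Linked
      refine and_congr_right fun _ => forall_congr' fun D => forall_congr' fun _ =>
        forall_congr' fun _ => forall_congr' fun _ => forall_congr' fun _ => ⟨?_, ?_⟩
      · rintro ⟨a, ha, h1, h2⟩
        refine ⟨a, ?_, h1, h2⟩
        rw [Finset.insert_union, Finset.mem_insert] at ha
        rcases ha with rfl | ha
        · exact absurd hce h2
        · exact ha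
      · rintro ⟨a, ha, h1, h2⟩
        refine ⟨a, ?_, h1, h2⟩
        rw [Finset.insert_union]
        exact Finset.mem_insert_of_mem ha
    simp only [F, this]
  calc Ex s (fun e => l * c' e) (fun ω => if Trapped src tgt L o ω then (1 : ℝ) else 0)
      ≤ Ex s (fun e => l * c' e) (fun ω => ∑ A ∈ L.powerset,
          F A ω * ∏ e ∈ s.filter (Cross src tgt A), if e ∈ ω then (0 : ℝ) else 1) := by
        refine Ex_mono ht0 fun ω _ => ?_
        have hnn : ∀ A ∈ L.powerset, 0 ≤ F A ω * ∏ e ∈ s.filter (Cross src tgt A),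
            if e ∈ ω then (0 : ℝ) else 1 := fun A _ =>
          mul_nonneg (hF0 A ω) (Finset.prod_nonneg fun e _ => by split_ifs <;> norm_num)
        split_ifs with h
        · obtain ⟨A, hAL, hA1, hA2⟩ := exists_linked src tgt hT h
          refine le_trans ?_ (Finset.single_le_sum hnn (Finset.mem_powerset.2 hAL))
          have : (∏ e ∈ s.filter (Cross src tgt A), if e ∈ ω then (0 : ℝ) else 1) = 1 :=
            Finset.prod_eq_one fun e he =>
              if_neg fun h' => hA2 e h' (Finset.mem_filter.1 he).2
          simp only [F, if_pos hA1, this]; norm_num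
        · exact Finset.sum_nonneg hnn
    _ = ∑ A ∈ L.powerset, Ex s (fun e => l * c' e) (fun ω =>
          F A ω * ∏ e ∈ s.filter (Cross src tgt A), if e ∈ ω then (0 : ℝ) else 1) :=
        Ex_sum _ _ _ _
    _ ≤ ∑ A ∈ L.powerset, Ex s (fun e => l * c' e) (fun ω =>
          F A ω * ∏ e ∈ s.filter (Cross src tgt A),
            if e ∈ ω then Real.exp (-(K0 * (c' e + 1))) else Real.exp (-(K0 * c' e))) := by
        refine Finset.sum_le_sum fun A _ => ?_
        exact Ex_prod_le ht0 (u0 := fun _ => 1) (u1 := fun _ => 0)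
          (v0 := fun e => Real.exp (-(K0 * c' e))) (v1 := fun e => Real.exp (-(K0 * (c' e + 1))))
          (fun _ => zero_le_one) (fun _ => le_rfl) (fun _ => (Real.exp_pos _).le)
          (fun _ => (Real.exp_pos _).le) _ (Finset.filter_subset _ _)
          (fun e he => edge_ineq hK00 hl (hc'0 e (Finset.mem_filter.1 he).1)) (hF0 A) (hF A)
    _ = Ex s (fun e => l * c' e) (fun ω => ∑ A ∈ L.powerset,
          F A ω * ∏ e ∈ s.filter (Cross src tgt A),
            if e ∈ ω then Real.exp (-(K0 * (c' e + 1))) else Real.exp (-(K0 * c' e))) :=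
        (Ex_sum _ _ _ _).symm
    _ ≤ Ex s (fun e => l * c' e) (fun _ => u * h 1) := by
        refine Ex_mono ht0 fun ω hω => ?_
        set w : E → ℝ := fun e => c' e + if e ∈ ω then 1 else 0 with hw
        have hcw : ∀ e, c e ≤ w e := fun e => by
          simp only [hw, hc']; split_ifs <;> linarith
        have hw0 : ∀ e ∈ s, 0 ≤ w e := fun e he => (hc e he).trans (hcw e)
        have hisow : ∀ S : Finset V, S.Nonempty → S ⊆ L → ψ (2 * S.card) ≤ bd src tgt s w S :=
          fun S h1 h2 => (hiso S h1 h2).trans (Finset.sum_le_sum fun e _ => hcw e)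
        refine le_trans (Finset.sum_le_sum fun A _ => ?_)
          (count_cuts src tgt s hw0 hp o hisow hK hu0 hu)
        by_cases hA : Linked src tgt L o (ω ∪ T) A
        · have hv : Valid src tgt s w L o A := by
            refine ⟨hA.1, fun D h1 h2 h3 h4 => ?_⟩
            obtain ⟨e, he, he1, he2⟩ := hA.2 D h1 h2 h3 h4
            have hes : e ∈ s := Finset.union_subset hω hTs he
            have h5 : 1 ≤ w e := by
              have := hc e hes
              simp only [hw, hc']
              rcases Finset.mem_union.1 he with h | h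
              · rw [if_pos h]; split_ifs <;> linarith
              · rw [if_pos h]; split_ifs <;> linarith
            exact h5.trans (Finset.single_le_sum (f := w)
              (fun a ha => hw0 a (Finset.mem_filter.1 ha).1) (Finset.mem_filter.2 ⟨hes, he1, he2⟩))
          simp only [F, if_pos hA, if_pos hv, one_mul]
          apply le_of_eq
          unfold bd
          rw [Finset.mul_sum, ← Finset.sum_neg_distrib, Real.exp_sum]
          refine Finset.prod_congr rfl fun e _ => ?_
          simp only [hw]
          split_ifs <;> simp [hK0def]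
        · simp only [F, if_neg hA, zero_mul]
          split_ifs
          · exact (Real.exp_pos _).le
          · exact le_rfl
    _ = u * h 1 := Ex_const _ _ _

/-- The finite volume bound, uniform in the volume. -/
theorem finite_bound {ψ h : ℕ → ℝ} (hp : Pr ψ h) :
    ∃ l0 : ℝ, ∀ (src tgt : E → V) (s : Finset E) (c : E → ℝ) (L : Finset V) (o : V) (lam : ℝ),
      (∀ e ∈ s, 0 ≤ c e) →
      (∀ S : Finset V, S.Nonempty → S ⊆ L → ψ (2 * S.card) ≤ bd src tgt s c S) → l0 ≤ lam →
      Ex s (fun e => lam * c e) (fun ω => if Trapped src tgt L o ω then (1 : ℝ) else 0)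
        ≤ 1 / 2 := by
  have ha0 := hp.pos 1 le_rfl
  have hb0 := hp.nonneg 1
  set r := 4 * (h 1 + 1) * (1 + 1 / ψ 1) with hr
  have hr0 : 0 ≤ r := by positivity
  set K := 4 + r with hKdef
  have hu : 2 * (1 + 1 / ψ 1) ≤ 1 / (2 * (h 1 + 1)) * K ^ 2 := by
    rw [one_div_mul_eq_div, le_div_iff₀ (by positivity)]
    nlinarith
  set l := 2 * K * (h 1 + 1) * Real.exp (2 * K * (h 1 + 1)) with hldef
  have hl0 : 0 ≤ l := by positivity
  have hl : 2 * K * (h 1 + 1) ≤ l * Real.exp (-(2 * K * (h 1 + 1))) := by
    rw [hldef, mul_assoc _ (Real.exp _), ← Real.exp_add]; simp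
  refine ⟨l + 2 * l * h 1, fun src tgt s c L o lam hc hiso hlam => ?_⟩
  obtain ⟨T, hTs, hT, hEx⟩ := scaffold_aux src tgt s hc hp hiso hl0
    (trapped_anti src tgt L o) _ (init L) (good_init L) (Nat.lt_succ_self _)
    (fun e => l * c e) (fun e he => mul_nonneg hl0 (hc e he))
  have hP := peierls src tgt s hc hp o hiso (K := K) (by linarith) (by positivity) hu hl0 hl hTs
    (fun S h1 h2 => hT S h1 (meas_init h2))
  calc _ ≤ Ex s (fun e => l * c e + l * c e * (hg (fun D => h D.card) (init L) (src e)
          + hg (fun D => h D.card) (init L) (tgt e)))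
        (fun ω => if Trapped src tgt L o ω then (1 : ℝ) else 0) := by
        refine Ex_anti (fun e he => ?_) (fun e he => ?_) (trapped_anti src tgt L o)
        · exact add_nonneg (mul_nonneg hl0 (hc e he)) (mul_nonneg (mul_nonneg hl0 (hc e he))
            (add_nonneg (hg_nonneg (fun _ => hp.nonneg _) _ _)
              (hg_nonneg (fun _ => hp.nonneg _) _ _)))
        · have h1 := mul_le_mul_of_nonneg_left
            (add_le_add (hp.hg_init L (src e)) (hp.hg_init L (tgt e))) (mul_nonneg hl0 (hc e he))
          have h2 := mul_le_mul_of_nonneg_right hlam (hc e he)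
          have h3 : (l + 2 * l * h 1) * c e = l * c e + l * c e * (h 1 + h 1) := by ring
          linarith
    _ ≤ _ := hEx
    _ = Ex s (fun e => l * (c e + if e ∈ T then 1 else 0))
        (fun ω => if Trapped src tgt L o ω then (1 : ℝ) else 0) := by
        refine Ex_congr_t _ fun e _ => ?_
        split_ifs <;> ring
    _ ≤ 1 / (2 * (h 1 + 1)) * h 1 := hP
    _ ≤ 1 / 2 := by
        rw [one_div_mul_eq_div, div_le_div_iff₀ (by positivity) two_pos]
        linarith

end Pool.Agent.P.MP_7c03a7_pr.S
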