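import Pool.Agent.P.MP_7c03a7_pr.Main
import Pool.Agent.P.MP_7c03a7_pr.S.Defs
import Pool.Agent.P.MP_7c03a7_pr.S.Finite

/-! A summable isoperimetric profile gives a finite critical parameter. -/

namespace Pool.Agent.P.MP_7c03a7_pr.S

open MeasureTheory ProbabilityTheory Finset
open scoped NNReal ENNReal Classical

variable {Γ : Type*}

lemma exists_pr {r : ℕ → ℝ} (hpos : ∀ n, 1 ≤ n → 0 < r n) (h0 : ∀ n, 0 ≤ r n)
    (hanti : ∀ n m, 1 ≤ n → n ≤ m → r m ≤ r n) (hs : Summable fun n : ℕ => r n / n) :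
    ∃ ψ h : ℕ → ℝ, Pr ψ h ∧ ∀ n, ψ (2 * n) = 1 / r n := by
  have h1 : Summable fun k : ℕ => r (2 ^ k) := by
    have h2 := (summable_condensed_iff_of_nonneg (f := fun n : ℕ => r n / n)
      (fun n => div_nonneg (h0 n) (Nat.cast_nonneg n)) (fun m n hm hmn =>
        div_le_div₀ (h0 m) (hanti m n hm hmn) (by exact_mod_cast hm)
          (by exact_mod_cast hmn))).2 hs
    refine h2.congr fun k => ?_
    push_cast
    field_simp
  have hp : ∀ j n : ℕ, 1 ≤ n → 1 ≤ 2 ^ j * n := fun j n hn =>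
    Nat.mul_pos (Nat.pow_pos two_pos) hn
  have h3 : ∀ n, 1 ≤ n → Summable fun j : ℕ => r ((2 ^ j * n + 1) / 2) := by
    intro n hn
    rw [← summable_nat_add_iff 1]
    refine Summable.of_nonneg_of_le (fun j => h0 _) (fun j => ?_) h1
    refine hanti _ _ (Nat.pow_pos two_pos) ?_
    have h4 : 2 ^ j * 1 ≤ 2 ^ j * n := Nat.mul_le_mul_left _ hn
    have h5 : 2 ^ (j + 1) * n = 2 * (2 ^ j * n) := by ring
    omega
  refine ⟨fun n => 1 / r ((n + 1) / 2), fun n => ∑' j : ℕ, r ((2 ^ j * n + 1) / 2),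
    ⟨fun n hn => ?_, fun n m hn hnm => ?_, fun n => tsum_nonneg fun j => h0 _,
      fun n m hn hnm => ?_, fun n hn => ?_⟩, fun n => ?_⟩
  · exact one_div_pos.2 (hpos _ (by omega))
  · exact one_div_le_one_div_of_le (hpos _ (by omega)) (hanti _ _ (by omega) (by omega))
  · refine (h3 m (by omega)).tsum_le_tsum (fun j => hanti _ _ ?_ ?_) (h3 n hn)
    · have := hp j n hn
      omega
    · have : 2 ^ j * n ≤ 2 ^ j * m := Nat.mul_le_mul_left _ hnm
      omega
  · rw [(h3 n hn).tsum_eq_zero_add, one_div_one_div, pow_zero, one_mul, add_comm]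
    apply le_of_eq
    congr 1
    refine tsum_congr fun j => ?_
    congr 3
    ring
  · have : (2 * n + 1) / 2 = n := by omega
    simp only [this]

lemma profile_mono [Group Γ] (μ : PMF Γ) {n m : ℕ} (h : n ≤ m) : profile μ n ≤ profile μ m :=
  le_iInf₂ fun S hS => iInf₂_le S (h.trans hS)

lemma exists_rate [Group Γ] (μ : PMF Γ) (hsum : profileSum μ < ⊤) :
    ∃ r : ℕ → ℝ, (∀ n, 1 ≤ n → 0 < r n) ∧ (∀ n, 0 ≤ r n) ∧
      (∀ n m, 1 ≤ n → n ≤ m → r m ≤ r n) ∧ (Summable fun n : ℕ => r n / n) ∧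
      ∀ S : Finset Γ, S.Nonempty → ENNReal.ofReal (1 / r S.card) < boundary μ S := by
  have hne : ∀ n : ℕ, ((n : ℝ≥0∞) + 1) ≠ 0 := fun n => by simp
  have hnt : ∀ n : ℕ, ((n : ℝ≥0∞) + 1) ≠ ⊤ := fun n => by simp
  have hP : ∀ n, 1 ≤ n → profile μ n ≠ 0 := by
    intro n hn h
    have h1 : profile μ (0 + 1) = 0 := le_antisymm (h ▸ profile_mono μ hn) bot_le
    have h2 := ENNReal.ne_top_of_tsum_ne_top hsum.ne 0
    rw [h1] at h2
    simp at h2
  let q : ℕ → ℝ := fun n => ((profile μ n)⁻¹).toReal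
  have hq0 : ∀ n, 0 ≤ q n := fun n => ENNReal.toReal_nonneg
  have hpos : ∀ n : ℕ, 1 ≤ n → 0 < q n + 1 / (n : ℝ) := fun n hn => by
    have : (0 : ℝ) < n := by exact_mod_cast hn
    have := hq0 n
    positivity
  refine ⟨fun n => q n + 1 / n, hpos, fun n => by have := hq0 n; positivity,
    fun n m hn hnm => ?_, ?_, fun S hS => ?_⟩
  · refine add_le_add ?_ (one_div_le_one_div_of_le (by exact_mod_cast hn) (by exact_mod_cast hnm))
    exact ENNReal.toReal_mono (ENNReal.inv_ne_top.2 (hP n hn))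
      (ENNReal.inv_le_inv.2 (profile_mono μ hnm))
  · have h1 : Summable fun n : ℕ => q n / n := by
      rw [← summable_nat_add_iff 1]
      refine (ENNReal.summable_toReal hsum.ne).congr fun n => ?_
      rw [ENNReal.mul_inv (Or.inl (hne n)) (Or.inl (hnt n)), ENNReal.toReal_mul,
        ENNReal.toReal_inv, ENNReal.toReal_add (by simp) (by simp)]
      simp only [q]
      push_cast
      rw [ENNReal.toReal_natCast, ENNReal.toReal_one, div_eq_inv_mul]
    have h2 : Summable fun n : ℕ => 1 / (n : ℝ) ^ 2 := Real.summable_one_div_nat_pow.2 one_lt_two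
    refine (h1.add h2).congr fun n => ?_
    ring
  · have hc : 1 ≤ S.card := hS.card_pos
    have hc' : (0 : ℝ) < S.card := by exact_mod_cast hc
    have h1 : profile μ S.card ≤ boundary μ S := iInf₂_le S (le_refl S.card)
    refine lt_of_lt_of_le ?_ h1
    by_cases ht : profile μ S.card = ⊤
    · rw [ht]; exact ENNReal.ofReal_lt_top
    have h2 : 0 < (profile μ S.card).toReal := ENNReal.toReal_pos (hP _ hc) ht
    rw [← ENNReal.ofReal_toReal ht, ENNReal.ofReal_lt_ofReal_iff h2, div_lt_iff₀ (hpos _ hc)]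
    simp only [q, ENNReal.toReal_inv]
    rw [mul_add, mul_inv_cancel₀ h2.ne']
    have : 0 < (profile μ S.card).toReal * (1 / (S.card : ℝ)) := by positivity
    linarith

theorem finite_cluster_le [Group Γ] [Countable Γ] (μ : PMF Γ) (hμ : ∀ g, μ g⁻¹ = μ g)
    (hsum : profileSum μ < ⊤) :
    ∃ l0 : ℝ≥0, ∀ lam : ℝ≥0, l0 ≤ lam →
      law μ hμ lam {ω | {h : Γ | (graphOf ω).Reachable 1 h}.Finite} ≤ 1 / 2 := by
  obtain ⟨r, hr1, hr2, hr3, hr4, hiso⟩ := exists_rate μ hsum
  obtain ⟨ψ, h, hp, hψ⟩ := exists_pr hr1 hr2 hr3 hr4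
  obtain ⟨l0, hl0⟩ := finite_bound (V := Γ) (E := Pairs Γ) hp
  refine ⟨l0.toNNReal, fun lam hlam => ?_⟩
  have hlam' : l0 ≤ (lam : ℝ) := (Real.le_coe_toNNReal l0).trans (by exact_mod_cast hlam)
  let U : Finset Γ → Set (Pairs Γ → ℕ) := fun L =>
    {ω | {h : Γ | (graphOf ω).Reachable 1 h} ⊆ L}
  have hU : {ω | {h : Γ | (graphOf ω).Reachable 1 h}.Finite} = ⋃ L, U L := by
    ext ω
    simp only [Set.mem_ofPred_eq, Set.mem_iUnion, U]
    constructor
    · intro h
      exact ⟨h.toFinset, by simp⟩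
    · rintro ⟨L, hL⟩
      exact L.finite_toSet.subset hL
  have hdir : Directed (· ⊆ ·) U := by
    intro L L'
    refine ⟨L ∪ L', fun ω hω => ?_, fun ω hω => ?_⟩
    · exact Set.Subset.trans hω (by simp)
    · exact Set.Subset.trans hω (by simp)
  rw [hU, hdir.measure_iUnion]
  refine iSup_le fun L => ?_
  have hex : ∀ S : Finset Γ, S.Nonempty → ∃ s : Finset (Pairs Γ),
      1 / r S.card ≤ bd src tgt s (fun e => (pairWeight μ hμ e.1 : ℝ)) S :=
    fun S hS => exists_edges μ hμ S (one_div_nonneg.2 (hr2 _)) (hiso S hS)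
  choose! sS hsS using hex
  set s := L.powerset.biUnion sS with hs
  have hiso' : ∀ S : Finset Γ, S.Nonempty → S ⊆ L →
      ψ (2 * S.card) ≤ bd src tgt s (fun e => (pairWeight μ hμ e.1 : ℝ)) S := by
    intro S hS hSL
    rw [hψ]
    refine (hsS S hS).trans ?_
    unfold bd
    refine Finset.sum_le_sum_of_subset_of_nonneg (Finset.filter_subset_filter _ ?_)
      fun e _ _ => (pairWeight μ hμ e.1).2
    exact Finset.subset_biUnion_of_mem sS (Finset.mem_powerset.2 hSL)
  have hb := hl0 src tgt s (fun e => (pairWeight μ hμ e.1 : ℝ)) L 1 lam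
    (fun e _ => (pairWeight μ hμ e.1).2) hiso' hlam'
  have hsub : U L ⊆ {ω | Trapped src tgt L 1 (s.filter fun e => ω e ≠ 0)} := by
    intro ω hω
    refine ⟨L.filter fun h => (graphOf ω).Reachable 1 h, Finset.filter_subset _ _, ?_, ?_⟩
    · exact Finset.mem_filter.2 ⟨hω (SimpleGraph.Reachable.refl _), SimpleGraph.Reachable.refl _⟩
    · intro e he
      have hadj := adj_of_open (Finset.mem_filter.1 he).2
      unfold Cross
      rw [not_not, Finset.mem_filter, Finset.mem_filter]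
      constructor
      · rintro ⟨_, h⟩
        exact ⟨hω (h.trans hadj.reachable), h.trans hadj.reachable⟩
      · rintro ⟨_, h⟩
        exact ⟨hω (h.trans hadj.symm.reachable), h.trans hadj.symm.reachable⟩
  refine (measure_mono hsub).trans ((measure_le_Ex _ s _).trans ?_)
  have h2 : (1 / 2 : ℝ≥0∞) = ENNReal.ofReal (1 / 2) := by
    rw [ENNReal.ofReal_div_of_pos two_pos]; simp
  rw [h2]
  refine ENNReal.ofReal_le_ofReal ?_
  simpa only [NNReal.coe_mul] using hb

theorem lambdaC_lt_top [Group Γ] [Countable Γ] (μ : PMF Γ) (hμ : ∀ g, μ g⁻¹ = μ g)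
    (hsum : profileSum μ < ⊤) : lambdaC μ hμ < ⊤ := by
  obtain ⟨l0, hl0⟩ := finite_cluster_le μ hμ hsum
  refine lt_of_le_of_lt ?_ (ENNReal.coe_lt_top (r := l0))
  unfold lambdaC
  refine iSup_le fun lam => iSup_le fun _ => iSup_le fun h0 => ?_
  by_contra hlt
  have hle : l0 ≤ lam := by
    rw [ENNReal.coe_le_coe] at hlt
    exact (not_le.1 hlt).le
  have h1 := hl0 lam hle
  have hprob : IsProbabilityMeasure (law μ hμ lam) := by
    unfold law; infer_instance
  have hcov : (Set.univ : Set (Pairs Γ → ℕ)) ⊆ {ω | HasInfiniteComponent ω}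
      ∪ {ω | {h : Γ | (graphOf ω).Reachable 1 h}.Finite} := by
    intro ω _
    by_cases h : {h : Γ | (graphOf ω).Reachable 1 h}.Finite
    · exact Or.inr h
    · exact Or.inl ⟨1, h⟩
  have h2 := (measure_mono (μ := law μ hμ lam) hcov).trans (measure_union_le _ _)
  rw [measure_univ, h0, zero_add] at h2
  have h3 := h2.trans h1
  norm_num at h3

/-- A summable lower bound for the boundary gives a finite profile sum. -/
lemma profileSum_lt_top [Group Γ] (μ : PMF Γ) {f : ℕ → ℝ} (hpos : ∀ n, 1 ≤ n → 0 < f n)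
    (hmono : ∀ n m, 1 ≤ n → n ≤ m → f n ≤ f m)
    (hs : Summable fun n : ℕ => 1 / (((n : ℝ) + 1) * f (n + 1)))
    (hiso : ∀ S : Finset Γ, S.Nonempty → ENNReal.ofReal (f S.card) ≤ boundary μ S) :
    profileSum μ < ⊤ := by
  have h0 : ∀ n : ℕ, 0 < ((n : ℝ) + 1) * f (n + 1) := fun n =>
    mul_pos (by positivity) (hpos _ (by omega))
  refine lt_of_le_of_lt ?_ (ENNReal.ofReal_lt_top (r := ∑' n : ℕ, 1 / (((n : ℝ) + 1) * f (n + 1))))
  rw [ENNReal.ofReal_tsum_of_nonneg (fun n => (one_div_pos.2 (h0 n)).le) hs]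
  refine ENNReal.tsum_le_tsum fun n => ?_
  rw [one_div, ENNReal.ofReal_inv_of_pos (h0 n), ENNReal.inv_le_inv,
    ENNReal.ofReal_mul (by positivity)]
  have h1 : ENNReal.ofReal ((n : ℝ) + 1) = (n : ℝ≥0∞) + 1 := by
    rw [ENNReal.ofReal_add (Nat.cast_nonneg n) zero_le_one]; simp
  rw [h1]
  refine mul_le_mul_right (le_iInf₂ fun S hS => ?_) _
  exact (ENNReal.ofReal_le_ofReal (hmono _ _ (by omega) hS)).trans
    (hiso S (Finset.card_pos.1 (by omega)))

theorem profileSum_lt_top_of_dim [Group Γ] (μ : PMF Γ) (hdim : 1 < isoDim μ) :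
    profileSum μ < ⊤ := by
  obtain ⟨a, γ, ha, hγ, hiso⟩ := iso_of_dim μ hdim
  refine profileSum_lt_top μ (f := fun n => (a * (n : ℝ) ^ γ) ^ 2) (fun n hn => ?_)
    (fun n m hn hnm => ?_) ?_ fun S hS => (hiso S hS).le
  · have : (0 : ℝ) < n := by exact_mod_cast hn
    positivity
  · gcongr
  · have h1 : Summable fun n : ℕ => 1 / (n : ℝ) ^ (1 + 2 * γ) :=
      Real.summable_one_div_nat_rpow.2 (by linarith)
    refine (((summable_nat_add_iff 1).2 h1).mul_left (1 / a ^ 2)).congr fun n => ?_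
    have h2 : (0 : ℝ) < (n : ℝ) + 1 := by positivity
    push_cast
    rw [Real.rpow_add h2, Real.rpow_one, mul_comm 2 γ, Real.rpow_mul h2.le, Real.rpow_two]
    field_simp

end Pool.Agent.P.MP_7c03a7_pr.S
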