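import Pool.Agent.P.MP_7c03a7_pr.Finite

/-! The merge step with its set theoretic description, and heights for a summable profile. -/

namespace Pool.Agent.P.MP_7c03a7_pr.S

open Finset
open scoped Classical

variable {V E : Type*}

lemma merge_step {L : Finset V} {B : V → Finset V} (hB : Good L B) (hne : ∃ x, (B x).Nonempty) :
    ∃ D : Finset V, D.Nonempty ∧ D ⊆ L ∧ (∀ x ∈ D, B x = D) ∧
      (∀ A, Meas B A → D ⊆ A ∨ Disjoint D A) ∧
      ∀ x y, x ∈ D → y ∉ D → ∃ B', Good L B' ∧ size L B' < size L B ∧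
        (∀ z, (B' z).Nonempty → (B z).Nonempty ∧ B z ⊆ B' z) ∧
        (∀ z ∈ D, (B' z).Nonempty → 2 * D.card ≤ (B' z).card) ∧
        ∀ A, Meas B A → (x ∈ A ↔ y ∈ A) → Meas B' A := by
  obtain ⟨x₁, hx₁⟩ := hne
  have hF : (L.filter fun x => (B x).Nonempty).Nonempty :=
    ⟨x₁, Finset.mem_filter.2 ⟨hB.sub _ (hB.self _ hx₁), hx₁⟩⟩
  obtain ⟨x₀, hx₀, hmin⟩ := Finset.exists_min_image _ (fun x => (B x).card) hF
  have hD : (B x₀).Nonempty := (Finset.mem_filter.1 hx₀).2
  have hmin' : ∀ y, (B y).Nonempty → (B x₀).card ≤ (B y).card := fun y hy =>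
    hmin y (Finset.mem_filter.2 ⟨hB.sub _ (hB.self _ hy), hy⟩)
  refine ⟨B x₀, hD, hB.sub _, fun x hx => hB.same _ _ hx, fun A hA => ?_, fun x y hx hy => ?_⟩
  · by_cases h : Disjoint (B x₀) A
    · exact Or.inr h
    · left
      obtain ⟨z, hz, hzA⟩ := Finset.not_disjoint_iff.1 h
      rw [← hB.same _ _ hz]
      exact (hA z hzA).2
  · set D := B x₀ with hDdef
    have hdisj : Disjoint D (B y) := by
      rw [Finset.disjoint_left]
      intro z hz hzy
      have h1 : B z = D := hB.same _ _ hz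
      have h2 : B z = B y := hB.same _ _ hzy
      have h3 : y ∈ B y := hB.self _ ⟨z, hzy⟩
      exact hy (h1 ▸ h2 ▸ h3)
    set M : Finset V := if (B y).Nonempty then D ∪ B y else ∅ with hM
    have hMsub : M ⊆ D ∪ B y := by
      rw [hM]; split_ifs <;> simp
    have hMne : M.Nonempty → (B y).Nonempty ∧ M = D ∪ B y := by
      intro h
      by_cases h' : (B y).Nonempty
      · exact ⟨h', by rw [hM, if_pos h']⟩
      · rw [hM, if_neg h'] at h; simp at h
    have hcard : (D ∪ B y).card = D.card + (B y).card := Finset.card_union_of_disjoint hdisj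
    have hblock : ∀ z ∈ D ∪ B y, (B z).Nonempty ∧ B z ⊆ D ∪ B y := by
      intro z hz
      rcases Finset.mem_union.1 hz with h | h
      · rw [hB.same _ _ h]; exact ⟨hD, Finset.subset_union_left⟩
      · rw [hB.same _ _ h]; exact ⟨⟨z, h⟩, Finset.subset_union_right⟩
    have hout : ∀ z, z ∉ D ∪ B y → ∀ w ∈ B z, w ∉ D ∪ B y := by
      intro z hz w hw hw'
      have h1 : B w = B z := hB.same _ _ hw
      exact hz ((hblock w hw').2 (h1 ▸ hB.self z ⟨w, hw⟩))
    let B' : V → Finset V := fun z => if z ∈ D ∪ B y then M else B z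
    have hB'in : ∀ z ∈ D ∪ B y, B' z = M := fun z hz => if_pos hz
    have hB'out : ∀ z, z ∉ D ∪ B y → B' z = B z := fun z hz => if_neg hz
    refine ⟨B', ⟨fun z hz => ?_, fun z w hw => ?_, fun z => ?_⟩, ?_, fun z hz => ?_,
      fun z hz hz' => ?_, fun A hA hxy => ?_⟩
    · by_cases h : z ∈ D ∪ B y
      · rw [hB'in z h] at hz ⊢
        rw [(hMne hz).2]; exact h
      · rw [hB'out z h] at hz ⊢
        exact hB.self z hz
    · by_cases h : z ∈ D ∪ B y
      · rw [hB'in z h] at hw ⊢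
        exact hB'in w (hMsub hw)
      · rw [hB'out z h] at hw ⊢
        rw [hB'out w (hout z h w hw)]
        exact hB.same _ _ hw
    · by_cases h : z ∈ D ∪ B y
      · rw [hB'in z h]
        exact hMsub.trans (Finset.union_subset (hB.sub _) (hB.sub _))
      · rw [hB'out z h]; exact hB.sub z
    · unfold size
      refine Finset.sum_lt_sum (fun z _ => ?_) ⟨x, hB.sub _ hx, ?_⟩
      · by_cases h : z ∈ D ∪ B y
        · rw [hB'in z h]
          by_cases hM' : M.Nonempty
          · have hle : (B z).card ≤ M.card := by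
              rw [(hMne hM').2]; exact Finset.card_le_card (hblock z h).2
            rw [if_pos hM', if_pos (hblock z h).1]; omega
          · rw [if_neg hM']; exact Nat.zero_le _
        · rw [hB'out z h]
      · have hx' : x ∈ D ∪ B y := Finset.mem_union_left _ hx
        have hDL : D.card ≤ L.card := Finset.card_le_card (hB.sub _)
        have hBx : B x = D := hB.same _ _ hx
        rw [hB'in x hx', hBx, if_pos hD]
        by_cases hM' : M.Nonempty
        · obtain ⟨hy', hMe⟩ := hMne hM'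
          have h2 : D.card < M.card := by
            rw [hMe, hcard]; have := hy'.card_pos; omega
          rw [if_pos hM']; omega
        · rw [if_neg hM']; omega
    · by_cases h : z ∈ D ∪ B y
      · rw [hB'in z h] at hz ⊢
        rw [(hMne hz).2]
        exact hblock z h
      · rw [hB'out z h] at hz ⊢
        exact ⟨hz, Subset.rfl⟩
    · rw [hB'in z (Finset.mem_union_left _ hz)] at hz' ⊢
      obtain ⟨hy', hMe⟩ := hMne hz'
      rw [hMe, hcard]
      have := hmin' y hy'
      omega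
    · intro z hz
      by_cases h : z ∈ D ∪ B y
      · have hxA : x ∈ A := by
          rcases Finset.mem_union.1 h with h' | h'
          · have := (hA z hz).2
            rw [hB.same _ _ h'] at this
            exact this hx
          · have := (hA z hz).2
            rw [hB.same _ _ h'] at this
            exact hxy.2 (this (hB.self y ⟨z, h'⟩))
        have hyA : y ∈ A := hxy.1 hxA
        have hy' := (hA y hyA).1
        have hMe : M = D ∪ B y := by rw [hM, if_pos hy']
        rw [hB'in z h, hMe]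
        refine ⟨hD.mono Finset.subset_union_left, Finset.union_subset ?_ (hA y hyA).2⟩
        have := (hA x hxA).2
        rwa [hB.same _ _ hx] at this
      · rw [hB'out z h]; exact hA z hz

/-- The merge step phrased for edges. -/
lemma merge_edge (src tgt : E → V) {L : Finset V} {B : V → Finset V} (hB : Good L B)
    (hne : ∃ x, (B x).Nonempty) :
    ∃ D : Finset V, D.Nonempty ∧ D ⊆ L ∧ (∀ x ∈ D, B x = D) ∧
      (∀ A, Meas B A → D ⊆ A ∨ Disjoint D A) ∧
      ∀ e, Cross src tgt D e → ∃ B', Good L B' ∧ size L B' < size L B ∧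
        (∀ z, (B' z).Nonempty → (B z).Nonempty ∧ B z ⊆ B' z) ∧
        (∀ z ∈ D, (B' z).Nonempty → 2 * D.card ≤ (B' z).card) ∧
        ∀ A, Meas B A → ¬ Cross src tgt A e → Meas B' A := by
  obtain ⟨D, h1, h2, h3, h4, h5⟩ := merge_step hB hne
  refine ⟨D, h1, h2, h3, h4, fun e he => ?_⟩
  unfold Cross at he
  by_cases hs : src e ∈ D
  · have ht' : tgt e ∉ D := fun h => he ⟨fun _ => h, fun _ => hs⟩
    obtain ⟨B', a1, a2, a3, a4, a5⟩ := h5 _ _ hs ht'
    exact ⟨B', a1, a2, a3, a4, fun A hA hc => a5 A hA (not_not.1 hc)⟩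
  · have ht' : tgt e ∈ D := by
      by_contra h
      exact he ⟨fun h' => absurd h' hs, fun h' => absurd h' h⟩
    obtain ⟨B', a1, a2, a3, a4, a5⟩ := h5 _ _ ht' hs
    exact ⟨B', a1, a2, a3, a4, fun A hA hc => a5 A hA (not_not.1 hc).symm⟩

/-- A growth profile `ψ` with a height function `h`. -/
structure Pr (ψ h : ℕ → ℝ) : Prop where
  pos : ∀ n, 1 ≤ n → 0 < ψ n
  mono : ∀ n m, 1 ≤ n → n ≤ m → ψ n ≤ ψ m
  nonneg : ∀ n, 0 ≤ h n
  anti : ∀ n m, 1 ≤ n → n ≤ m → h m ≤ h n
  drop : ∀ n, 1 ≤ n → h (2 * n) + 1 / ψ n ≤ h n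

/-- The height of a vertex for a function `g` of its block. -/
noncomputable def hg (g : Finset V → ℝ) (B : V → Finset V) (x : V) : ℝ :=
  if (B x).Nonempty then g (B x) else 0

lemma hg_nonneg {g : Finset V → ℝ} (h : ∀ D, 0 ≤ g D) (B : V → Finset V) (x : V) :
    0 ≤ hg g B x := by
  unfold hg
  split_ifs
  · exact h _
  · exact le_rfl

lemma hg_le {g : Finset V → ℝ} (h0 : ∀ D, 0 ≤ g D)
    (ha : ∀ D N : Finset V, D.Nonempty → D ⊆ N → g N ≤ g D) {B B' : V → Finset V}
    (hB : ∀ z, (B' z).Nonempty → (B z).Nonempty ∧ B z ⊆ B' z) (z : V) :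
    hg g B' z ≤ hg g B z := by
  by_cases h : (B' z).Nonempty
  · unfold hg
    rw [if_pos h, if_pos (hB z h).1]
    exact ha _ _ (hB z h).1 (hB z h).2
  · rw [hg, if_neg h]
    exact hg_nonneg h0 B z

lemma hg_drop {g : Finset V → ℝ} {B B' : V → Finset V} {D : Finset V} {δ : ℝ} (hD : D.Nonempty)
    (hBD : ∀ x ∈ D, B x = D) (hB : ∀ z, (B' z).Nonempty → (B z).Nonempty ∧ B z ⊆ B' z)
    (hB2 : ∀ z ∈ D, (B' z).Nonempty → 2 * D.card ≤ (B' z).card) (h0 : δ ≤ g D)
    (h1 : ∀ N, D ⊆ N → 2 * D.card ≤ N.card → g N + δ ≤ g D) :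
    ∀ z ∈ D, hg g B' z + δ ≤ hg g B z := by
  intro z hz
  unfold hg
  rw [hBD z hz, if_pos hD]
  split_ifs with h
  · exact h1 _ (hBD z hz ▸ (hB z h).2) (hB2 z hz h)
  · rwa [zero_add]

lemma edge_drop {src tgt : E → V} {D : Finset V} {h h' : V → ℝ} {δ : ℝ}
    (h1 : ∀ z, h' z ≤ h z) (h2 : ∀ z ∈ D, h' z + δ ≤ h z) (e : E) :
    h' (src e) + h' (tgt e) + (if Cross src tgt D e then δ else 0) ≤ h (src e) + h (tgt e) := by
  split_ifs with he
  · unfold Cross at he
    by_cases hs : src e ∈ D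
    · linarith [h2 _ hs, h1 (tgt e)]
    · have ht' : tgt e ∈ D := by
        by_contra h
        exact he ⟨fun h' => absurd h' hs, fun h' => absurd h' h⟩
      linarith [h2 _ ht', h1 (src e)]
  · linarith [h1 (src e), h1 (tgt e)]

section

variable {ψ h : ℕ → ℝ} (hp : Pr ψ h)
include hp

lemma Pr.card_anti (D N : Finset V) (hD : D.Nonempty) (hN : D ⊆ N) : h N.card ≤ h D.card :=
  hp.anti _ _ hD.card_pos (card_le_card hN)

lemma Pr.inv_le {n : ℕ} (hn : 1 ≤ n) : 1 / ψ n ≤ h n := by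
  linarith [hp.drop n hn, hp.nonneg (2 * n)]

lemma Pr.drop' {n m : ℕ} (hn : 1 ≤ n) (hm : 2 * n ≤ m) : h m + 1 / ψ n ≤ h n := by
  linarith [hp.drop n hn, hp.anti (2 * n) m (by omega) hm]

lemma Pr.hg_init (L : Finset V) (x : V) : hg (fun D => h D.card) (init L) x ≤ h 1 := by
  unfold hg
  split_ifs with h1
  · exact hp.anti _ _ le_rfl h1.card_pos
  · exact hp.nonneg 1

end

end Pool.Agent.P.MP_7c03a7_pr.S
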